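import Pool.Agent.Y661.NU.Stm

/-!
# Project NU: the deterministic part (S_FOR)
-/

set_option autoImplicit false

namespace Pool.Agent.Y689.NU.FOR

open H974 Pool.Agent.Y661.NU

/-! ### Two paths which cross meet at a vertex -/

/-- A path of `G` from `u` stays in the edges starting at points reachable from `u`. -/
theorem reach_own {G : Set Edg} {u v : Vtx} (h : Reach G u v) :
    Reach {e | e ∈ G ∧ Reach G u (src e)} u v := by
  have key : ∀ w, Reach G u w → Reach {e | e ∈ G ∧ Reach G u (src e)} u w := by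
    intro w hw
    induction hw with
    | refl => exact Reach.refl _ _
    | tail h1 h2 ih =>
      rename_i x y
      refine Relation.ReflTransGen.tail ih ?_
      obtain ⟨e, he, h3⟩ := h2
      refine ⟨e, ⟨he, ?_⟩, h3⟩
      rcases h3 with ⟨h4, -⟩ | ⟨h4, h5⟩
      · rw [h4]
        exact h1
      · rw [h4]
        exact h1.tail ⟨e, he, Or.inr ⟨h4, h5⟩⟩
  exact key v h

theorem cross_vertex {G1 G2 : Set Edg} {A B C D a b c d : ℤ} (hA : A ≤ a) (hab : a < b)
    (hB : b ≤ B) (hC : C ≤ c) (hcd : c < d) (hD : d ≤ D) {u v u' v' : Vtx}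
    (h1 : Reach (G1 ∩ ↑(RE A B c d)) u v) (hu : u.1 ≤ a) (hv : b ≤ v.1)
    (h2 : Reach (G2 ∩ ↑(RE a b C D)) u' v') (hu' : u'.2 ≤ c) (hv' : d ≤ v'.2) :
    ∃ x, Reach G1 u x ∧ Reach G2 u' x := by
  by_contra hno
  push Not at hno
  set H1 := G1 ∩ (↑(RE A B c d) : Set Edg) with hH1
  set H2 := G2 ∩ (↑(RE a b C D) : Set Edg) with hH2
  have s1 : H1 ⊆ G1 := Set.inter_subset_left
  have s2 : H2 ⊆ G2 := Set.inter_subset_left
  set F : Set Edg := {e | e ∈ H1 ∧ Reach H1 u (src e)} ∪ {e | e ∈ H2 ∧ Reach H2 u' (src e)}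
    with hF
  have k1 : Reach (F ∩ ↑(RE A B c d)) u v :=
    Reach.mono (fun e he => Set.mem_inter (Or.inl he) he.1.2) (reach_own h1)
  have k2 : Reach (F ∩ ↑(RE a b C D)) u' v' :=
    Reach.mono (fun e he => Set.mem_inter (Or.inr he) he.1.2) (reach_own h2)
  have k3 := cross_meet hA hab hB hC hcd hD k1 hu hv k2 hu' hv'
  have key : ∀ w, Reach (F ∩ ↑(RE A B C D)) u w → Reach H1 u w := by
    intro w hw
    induction hw with
    | refl => exact Reach.refl _ _
    | tail h3 h4 ih =>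
      rename_i x y
      obtain ⟨e, he, h5⟩ := h4
      rcases he.1 with h6 | h6
      · exact ih.tail ⟨e, h6.1, h5⟩
      · exfalso
        rcases h5 with ⟨h7, h8⟩ | ⟨h7, h8⟩
        · refine hno x (ih.mono s1) ?_
          rw [← h7]
          exact h6.2.mono s2
        · refine hno x (ih.mono s1) ?_
          have := h6.2.tail ⟨e, h6.1, Or.inl ⟨rfl, rfl⟩⟩
          rw [h8] at this
          exact Reach.mono s2 this
  exact hno u' ((key u' k3).mono s1) (Reach.refl _ _)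

/-! ### Circuits -/

/-- Every path from the inner box to the boundary of the outer box meets the cluster of the
circuit. -/
theorem circ_vertex {F : Finset Edg} {T : Set Edg} {R1 R2 : ℤ} (h1 : 0 ≤ R1) (h2 : R1 < R2)
    (h : Circ R1 R2 F) : ∃ z : Vtx, inR (-R2) R2 (-R2) R2 z ∧ ∀ u v : Vtx,
      inR (-R1) R1 (-R1) R1 u → (v.1 ≤ -R2 ∨ R2 ≤ v.1 ∨ v.2 ≤ -R2 ∨ R2 ≤ v.2) →
      Reach T u v → ∃ x, Reach T u x ∧ Reach (↑F) z x := by
  obtain ⟨⟨⟨t, t', ht, ht', hT⟩, ⟨b, b', hb, hb', hB⟩⟩, ⟨r, r', hr, hr', hR⟩,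
    ⟨l, l', hl, hl', hL⟩⟩ := h
  have hT' := hT.mono (Set.inter_subset_inter_right (↑F)
    (by exact_mod_cast LRE_subset_RE : (↑(LRE (-R2) R2 R1 R2) : Set Edg) ⊆ _))
  have hB' := hB.mono (Set.inter_subset_inter_right (↑F)
    (by exact_mod_cast LRE_subset_RE : (↑(LRE (-R2) R2 (-R2) (-R1)) : Set Edg) ⊆ _))
  have hR' := hR.mono (Set.inter_subset_inter_right (↑F)
    (by exact_mod_cast TBE_subset_RE : (↑(TBE R1 R2 (-R2) R2) : Set Edg) ⊆ _))
  have hL' := hL.mono (Set.inter_subset_inter_right (↑F)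
    (by exact_mod_cast TBE_subset_RE : (↑(TBE (-R2) (-R1) (-R2) R2) : Set Edg) ⊆ _))
  have mTR : Reach (↑F ∩ ↑(RE (-R2) R2 (-R2) R2)) (-R2, t) (r, -R2) :=
    cross_meet (by omega) h2 le_rfl (by omega) h2 le_rfl hT' (by simp only; omega) le_rfl hR'
      (by simp only; omega) le_rfl
  have mBR : Reach (↑F ∩ ↑(RE (-R2) R2 (-R2) R2)) (-R2, b) (r, -R2) :=
    cross_meet (by omega) h2 le_rfl le_rfl (by omega) (by omega) hB' (by simp only; omega) le_rfl
      hR' le_rfl (by simp only; omega)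
  have mTL : Reach (↑F ∩ ↑(RE (-R2) R2 (-R2) R2)) (-R2, t) (l, -R2) :=
    cross_meet le_rfl (by omega) (by omega) (by omega) h2 le_rfl hT' le_rfl (by simp only; omega)
      hL' (by simp only; omega) le_rfl
  have s : (↑F ∩ ↑(RE (-R2) R2 (-R2) R2) : Set Edg) ⊆ ↑F := Set.inter_subset_left
  refine ⟨(r, -R2), ?_, ?_⟩
  · unfold inR
    simp only
    omega
  intro u v hu hv hP
  obtain ⟨w, hw, hwb, hQ⟩ := first_exit (a := -R2) (b := R2) (c := -R2) (d := R2)
    (by unfold inR at hu ⊢; omega) hP hv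
  unfold inR at hu
  rcases hwb with hw1 | hw1 | hw1 | hw1
  · obtain ⟨x, k1, k2⟩ := cross_vertex (a := -R2) (b := -R1) (c := -R2) (d := R2)
      le_rfl (by omega) (by omega) le_rfl (by omega) le_rfl hQ.symm hw1.le
      (show -R1 ≤ u.1 by omega) hL' le_rfl le_rfl
    exact ⟨x, (hQ.mono Set.inter_subset_left).trans k1,
      ((mTR.symm.trans mTL).mono s).trans k2⟩
  · obtain ⟨x, k1, k2⟩ := cross_vertex (a := R1) (b := R2) (c := -R2) (d := R2)
      (by omega) h2 le_rfl le_rfl (by omega) le_rfl hQ (by omega) hw1.ge hR' le_rfl le_rfl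
    exact ⟨x, k1, k2⟩
  · obtain ⟨x, k1, k2⟩ := cross_vertex (a := -R2) (b := R2) (c := -R2) (d := -R1)
      le_rfl (by omega) le_rfl le_rfl (by omega) (by omega) hB' le_rfl le_rfl hQ.symm
      hw1.le (show -R1 ≤ u.2 by omega)
    exact ⟨x, (hQ.mono Set.inter_subset_left).trans k2, (mBR.symm.mono s).trans k1⟩
  · obtain ⟨x, k1, k2⟩ := cross_vertex (a := -R2) (b := R2) (c := R1) (d := R2)
      le_rfl (by omega) le_rfl (by omega) h2 le_rfl hT' le_rfl le_rfl hQ (by omega) hw1.ge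
    exact ⟨x, k2, (mTR.symm.mono s).trans k1⟩

theorem not_blk {F : Finset Edg} {R1 R2 : ℤ} (h2 : R1 < R2) {u v : Vtx}
    (hu : inR (-R1) R1 (-R1) R1 u) (h : Reach (↑F : Set Edg) u v)
    (hv : v.1 ≤ -R2 ∨ R2 ≤ v.1 ∨ v.2 ≤ -R2 ∨ R2 ≤ v.2) : ¬ Blk R1 R2 F := by
  unfold inR at hu
  obtain ⟨w, k1, k2, k3⟩ := first_exit (a := -R2) (b := R2) (c := -R2) (d := R2)
    (by unfold inR; omega) h hv
  rintro ⟨hb1, hb2⟩
  rcases k2 with k2 | k2 | k2 | k2
  · apply hb1
    right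
    obtain ⟨y1, y2, m1, m2, m3, -⟩ := sub_LR (a := -R2) (b := -R1) (c := -R2) (d := R2) (by omega)
      (by rintro x y ⟨-, h⟩ _ _; simp only [Finset.mem_coe, mem_RE_true] at h; omega)
      (by rintro x y ⟨-, h⟩ _ _; simp only [Finset.mem_coe, mem_RE_false] at h; omega)
      k3.symm k2.le (show -R1 ≤ u.1 by omega)
    exact ⟨y1, y2, m1, m2, m3.mono (by rintro e ⟨⟨h4, -⟩, h5⟩; exact ⟨h4, h5⟩)⟩
  · apply hb1
    left
    obtain ⟨y1, y2, m1, m2, m3, -⟩ := sub_LR (a := R1) (b := R2) (c := -R2) (d := R2) (by omega)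
      (by rintro x y ⟨-, h⟩ _ _; simp only [Finset.mem_coe, mem_RE_true] at h; omega)
      (by rintro x y ⟨-, h⟩ _ _; simp only [Finset.mem_coe, mem_RE_false] at h; omega)
      k3 (show u.1 ≤ R1 by omega) k2.ge
    exact ⟨y1, y2, m1, m2, m3.mono (by rintro e ⟨⟨h4, -⟩, h5⟩; exact ⟨h4, h5⟩)⟩
  · apply hb2
    right
    obtain ⟨y1, y2, m1, m2, m3, -⟩ := sub_TB (a := -R2) (b := R2) (c := -R2) (d := -R1) (by omega)
      (by rintro x y ⟨-, h⟩ _ _; simp only [Finset.mem_coe, mem_RE_false] at h; omega)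
      (by rintro x y ⟨-, h⟩ _ _; simp only [Finset.mem_coe, mem_RE_true] at h; omega)
      k3.symm k2.le (show -R1 ≤ u.2 by omega)
    exact ⟨y1, y2, m1, m2, m3.mono (by rintro e ⟨⟨h4, -⟩, h5⟩; exact ⟨h4, h5⟩)⟩
  · apply hb2
    left
    obtain ⟨y1, y2, m1, m2, m3, -⟩ := sub_TB (a := -R2) (b := R2) (c := R1) (d := R2) (by omega)
      (by rintro x y ⟨-, h⟩ _ _; simp only [Finset.mem_coe, mem_RE_false] at h; omega)
      (by rintro x y ⟨-, h⟩ _ _; simp only [Finset.mem_coe, mem_RE_true] at h; omega)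
      k3 (show u.2 ≤ R1 by omega) k2.ge
    exact ⟨y1, y2, m1, m2, m3.mono (by rintro e ⟨⟨h4, -⟩, h5⟩; exact ⟨h4, h5⟩)⟩

/-! ### Strongest edges of cuts -/

theorem mem_Bf {M : ℕ} {v : Vtx} : v ∈ Bf M ↔ v ∈ Bx M := by
  unfold Bf Bx
  simp only [Finset.mem_product, Finset.mem_Icc, Set.mem_ofPred_eq, abs_le]

theorem cut_sub {A : Finset Vtx} {m : ℕ} (hA : ∀ v ∈ A, v ∈ Bx m) : cutE A ⊆ ↑(boxE (m + 1)) := by
  rintro ⟨x, y, b⟩ he
  have key : ((x, y) : Vtx) ∈ Bx m ∨ tgt (x, y, b) ∈ Bx m := by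
    rcases he with ⟨h1, -⟩ | ⟨-, h1⟩
    · exact Or.inl (hA _ h1)
    · exact Or.inr (hA _ h1)
  unfold boxE
  cases b
  · simp only [Bx, Set.mem_ofPred_eq, abs_le, tgt_false, Finset.mem_coe, mem_RE_false] at key ⊢
    push_cast
    omega
  · simp only [Bx, Set.mem_ofPred_eq, abs_le, tgt_true, Finset.mem_coe, mem_RE_true] at key ⊢
    push_cast
    omega

theorem cut_nonempty {A : Finset Vtx} (hA : A.Nonempty) : (cutE A).Nonempty := by
  obtain ⟨v, hv, hmax⟩ := A.exists_max_image (fun v => v.1) hA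
  refine ⟨(v.1, v.2, true), Or.inl ⟨hv, fun h => ?_⟩⟩
  have := hmax _ h
  simp only [tgt_true] at this
  omega

/-- The strongest edge of a cut. -/
theorem cut_max {a : Edg → ℝ} {M : ℕ} (hI : Inj a M) {A : Finset Vtx} (hne : A.Nonempty)
    (hA : ∀ v ∈ A, v ∈ Bx M) :
    ∃ e ∈ cutE A, Top a M e ∧ ∀ f ∈ cutE A, a f ≤ a e := by
  classical
  have hsub := cut_sub hA
  obtain ⟨e0, he0⟩ := cut_nonempty hne
  obtain ⟨e, he, hmax⟩ := ((boxE (M + 1)).filter fun e => e ∈ cutE A).exists_max_image a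
    ⟨e0, Finset.mem_filter.2 ⟨hsub he0, he0⟩⟩
  rw [Finset.mem_filter] at he
  have hle : ∀ f ∈ cutE A, a f ≤ a e := fun f hf => hmax f (Finset.mem_filter.2 ⟨hsub hf, hf⟩)
  refine ⟨e, he.2, ⟨A, hA, he.2, fun f hf hfe => ?_⟩, hle⟩
  exact lt_of_le_of_ne (hle f hf) (hI f (hsub hf) e he.1 hfe)

/-- An edge of the boundary leads out of a cluster: contradiction. -/
theorem leave {G : Set Edg} {u : Vtx} {A : Finset Vtx} (hA : ∀ v, v ∈ A ↔ Reach G u v)
    {e : Edg} (he : e ∈ cutE A) (heG : e ∈ G) : False := by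
  rcases he with ⟨h1, h2⟩ | ⟨h1, h2⟩
  · exact h2 ((hA _).2 (((hA _).1 h1).tail ⟨e, heG, Or.inl ⟨rfl, rfl⟩⟩))
  · exact h1 ((hA _).2 (((hA _).1 h2).tail ⟨e, heG, Or.inr ⟨rfl, rfl⟩⟩))

/-- The clusters of strongest edges leave the box. -/
theorem top_exit {a : Edg → ℝ} {M : ℕ} (hI : Inj a M) {u : Vtx} :
    ∃ v, Reach {e | Top a M e} u v ∧ v ∉ Bx M := by
  classical
  by_contra hno
  push Not at hno
  set A := (Bf M).filter fun v => Reach {e | Top a M e} u v with hAd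
  have hA : ∀ v, v ∈ A ↔ Reach {e | Top a M e} u v := by
    intro v
    rw [hAd, Finset.mem_filter, mem_Bf]
    exact ⟨fun h => h.2, fun h => ⟨hno v h, h⟩⟩
  obtain ⟨e, he, hT, -⟩ := cut_max hI (A := A) ⟨u, (hA u).2 (Reach.refl _ _)⟩
    (fun v hv => hno v ((hA v).1 hv))
  exact leave hA he hT

/-- A path from a point of `A` to a point outside `A` contains an edge of the boundary. -/
theorem path_cut {G : Set Edg} {A : Finset Vtx} {u v : Vtx} (h : Reach G u v) (hu : u ∈ A)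
    (hv : v ∉ A) : ∃ e ∈ G, e ∈ cutE A := by
  by_contra hno
  push Not at hno
  have key : ∀ w, Reach G u w → w ∈ A := by
    intro w hw
    induction hw with
    | refl => exact hu
    | tail _ h2 ih =>
      obtain ⟨e, he, h3⟩ := h2
      by_contra hy
      refine hno e he ?_
      rcases h3 with ⟨h4, h5⟩ | ⟨h4, h5⟩
      · exact Or.inl ⟨by rw [h4]; exact ih, by rw [h5]; exact hy⟩
      · exact Or.inr ⟨by rw [h4]; exact hy, by rw [h5]; exact ih⟩
  exact hv (key v h)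

/-- A finite open cluster surrounded by closed edges is connected by strongest edges. -/
theorem cluster_top {a : Edg → ℝ} {t : ℝ} {M R : ℕ} (hI : Inj a M) (hR : R < M) {z x y : Vtx}
    (hC : ∀ v, Reach (↑(Fo a t M)) z v → v ∈ Bx R) (hx : Reach (↑(Fo a t M)) z x)
    (hy : Reach (↑(Fo a t M)) z y) : Reach {e | Top a M e} x y := by
  classical
  set G : Set Edg := ↑(Fo a t M) ∩ {e | Top a M e} with hG
  have hGF : G ⊆ ↑(Fo a t M) := Set.inter_subset_left
  have hGT : G ⊆ {e | Top a M e} := Set.inter_subset_right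
  suffices h : Reach G x y from h.mono hGT
  by_contra hno
  have hb : ∀ v, Reach G x v → v ∈ Bx R := fun v hv => hC v (hx.trans (hv.mono hGF))
  set A := (Bf R).filter fun v => Reach G x v with hAd
  have hA : ∀ v, v ∈ A ↔ Reach G x v := by
    intro v
    rw [hAd, Finset.mem_filter, mem_Bf]
    exact ⟨fun h => h.2, fun h => ⟨hb v h, h⟩⟩
  have hAR : ∀ v ∈ A, v ∈ Bx R := fun v hv => hb v ((hA v).1 hv)
  have hAM : ∀ v ∈ A, v ∈ Bx M := by
    intro v hv
    have h1 := hAR v hv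
    simp only [Bx, Set.mem_ofPred_eq] at h1 ⊢
    have : (R : ℤ) < M := by exact_mod_cast hR
    omega
  obtain ⟨f, hfF, hf⟩ := path_cut (A := A) (hx.symm.trans hy) ((hA x).2 (Reach.refl _ _))
    (fun h => hno ((hA y).1 h))
  obtain ⟨e, he, hT, hle⟩ := cut_max hI (A := A) ⟨x, (hA x).2 (Reach.refl _ _)⟩ hAM
  have heB : e ∈ boxE M := boxE_mono (show R + 1 ≤ M by omega) (cut_sub hAR he)
  have hft : t < a f := by
    have : f ∈ Fo a t M := hfF
    unfold Fo at this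
    rw [Finset.mem_filter] at this
    exact this.2
  have heF : e ∈ Fo a t M := by
    unfold Fo
    rw [Finset.mem_filter]
    exact ⟨heB, lt_of_lt_of_le hft (hle f hf)⟩
  exact leave hA he ⟨heF, hT⟩

theorem main : S_FOR := by
  intro a t M hI hE u v hu hv
  obtain ⟨R1, R2, R3, R4, h1, h12, h23, h34, h4M, hc, hb⟩ := hE
  obtain ⟨z, hz, hzx⟩ := circ_vertex (F := Fo a t M) (T := {e | Top a M e}) (R1 := R1) (R2 := R2)
    (by positivity) (by exact_mod_cast h12) hc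
  have e1 : (1 : ℤ) ≤ R1 := by exact_mod_cast h1
  have e12 : (R1 : ℤ) < R2 := by exact_mod_cast h12
  have e23 : (R2 : ℤ) ≤ R3 := by exact_mod_cast h23
  have e34 : (R3 : ℤ) < R4 := by exact_mod_cast h34
  have e4M : (R4 : ℤ) < M := by exact_mod_cast h4M
  have hC : ∀ v, Reach (↑(Fo a t M)) z v → v ∈ Bx R4 := by
    intro w hw
    by_contra hno
    refine not_blk (F := Fo a t M) (R1 := R3) (R2 := R4) e34 (u := z) (v := w) ?_ hw ?_ hb
    · unfold inR at hz ⊢
      omega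
    · simp only [Bx, Set.mem_ofPred_eq, abs_le] at hno
      omega
  have key : ∀ u : Vtx, u ∈ Bx 1 → Reach {e | Top a M e} u z := by
    intro u hu
    obtain ⟨w, hw, hwM⟩ := top_exit (u := u) hI
    obtain ⟨x, k1, k2⟩ := hzx u w (by
      simp only [Bx, Set.mem_ofPred_eq, abs_le] at hu
      unfold inR
      push_cast at hu
      omega) (by
      simp only [Bx, Set.mem_ofPred_eq, abs_le] at hwM
      omega) hw
    exact k1.trans (cluster_top hI h4M hC k2 (Reach.refl _ _))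
  exact (key u hu).trans (key v hv).symm

end Pool.Agent.Y689.NU.FOR
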